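import Mathlib

/-!
# Translating a set of speeds can lower its loneliness gap, for every `n ≥ 2` and every shift `a`

For `n ≥ 2`, `a ≥ 1` and an odd number `k` let `V = {a (k w - 1) : 1 ≤ w ≤ n}`. Then
`a + V = {a k w : 1 ≤ w ≤ n}` has the same loneliness gap as `{1, …, n}`, namely `1 / (n + 1)`,
while `(k - 1) / (2 k) ≤ κ(V) < 1 / 2`.
-/

set_option autoImplicit false

namespace Pool.Agent.Results.MP_64d5df_nt.TranslationLowersGap

/-- The loneliness gap of a finite set of speeds: the supremum over all real `t` of the minimum over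
`v ∈ V` of the distance of `t v` to the nearest integer. -/
noncomputable def κ (V : Finset ℕ) : ℝ :=
  ⨆ t : ℝ, ⨅ v : V, |t * (v : ℕ) - round (t * (v : ℕ))|

/-- The translate `a + V`. -/
def translate (a : ℕ) (V : Finset ℕ) : Finset ℕ := V.image (fun v => a + v)

/-- `V` is a set of `n` positive integers. -/
def IsSpeeds (n : ℕ) (V : Finset ℕ) : Prop := V.card = n ∧ ∀ v ∈ V, 0 < v

theorem bdd (V : Finset ℕ) (t : ℝ) :
    BddBelow (Set.range fun v : V => |t * (v : ℕ) - round (t * (v : ℕ))|) :=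
  ⟨0, by rintro _ ⟨v, rfl⟩; exact abs_nonneg _⟩

theorem inf_le {V : Finset ℕ} (t : ℝ) {v : ℕ} (hv : v ∈ V) :
    (⨅ v : V, |t * (v : ℕ) - round (t * (v : ℕ))|) ≤ |t * v - round (t * v)| :=
  ciInf_le (bdd V t) ⟨v, hv⟩

theorem bddA {V : Finset ℕ} (hV : V.Nonempty) :
    BddAbove (Set.range fun t : ℝ => ⨅ v : V, |t * (v : ℕ) - round (t * (v : ℕ))|) := by
  obtain ⟨v, hv⟩ := hV
  refine ⟨1 / 2, ?_⟩
  rintro _ ⟨t, rfl⟩
  exact (inf_le t hv).trans (abs_sub_round _)

theorem le_κ {V : Finset ℕ} (hV : V.Nonempty) {c : ℝ} (t : ℝ)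
    (h : ∀ v ∈ V, c ≤ |t * v - round (t * v)|) : c ≤ κ V := by
  refine le_trans ?_ (le_ciSup (bddA hV) t)
  have : Nonempty V := hV.to_subtype
  exact le_ciInf fun v => h v v.2

theorem κ_le {V : Finset ℕ} {c : ℝ} (h : ∀ t : ℝ, ∃ v ∈ V, |t * v - round (t * v)| ≤ c) :
    κ V ≤ c := by
  refine ciSup_le fun t => ?_
  obtain ⟨v, hv, h⟩ := h t
  exact (inf_le t hv).trans h

theorem le_nd {c y : ℝ} (n : ℤ) (h1 : c ≤ y - n) (h2 : y - n ≤ 1 - c) : c ≤ |y - round y| := by
  rcases le_or_gt (round y) n with h | h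
  · have : ((round y : ℤ) : ℝ) ≤ n := by exact_mod_cast h
    exact le_trans (by linarith) (le_abs_self _)
  · have : (n : ℝ) + 1 ≤ ((round y : ℤ) : ℝ) := by exact_mod_cast h
    exact le_trans (by linarith) (neg_le_abs _)

/-- The set `{c w : 1 ≤ w ≤ n}` has loneliness gap `1 / (n + 1)`. -/
theorem κ_multiples (n c : ℕ) (hn : 1 ≤ n) (hc : 1 ≤ c) {V : Finset ℕ}
    (hV : V = (Finset.Icc 1 n).image (fun w => c * w)) : κ V = 1 / ((n : ℝ) + 1) := by
  have hcR : (0 : ℝ) < c := by exact_mod_cast hc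
  have hnR : (1 : ℝ) ≤ n := by exact_mod_cast hn
  subst hV
  apply le_antisymm
  · refine κ_le fun t => ?_
    obtain ⟨j, k, hk0, hkn, hjk⟩ := Real.exists_int_int_abs_mul_sub_le (t * c) (by omega : 0 < n)
    obtain ⟨m, rfl⟩ : ∃ m : ℕ, k = m := ⟨k.toNat, by omega⟩
    refine ⟨c * m, Finset.mem_image.2 ⟨m, by simp; omega, rfl⟩, ?_⟩
    refine (round_le _ j).trans ?_
    have e : t * ((c * m : ℕ) : ℝ) - j = ((m : ℤ) : ℝ) * (t * c) - j := by push_cast; ring
    rw [e]
    exact hjk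
  · refine le_κ (by simpa using hn) (1 / (c * (n + 1))) ?_
    intro v hv
    obtain ⟨w, hw, rfl⟩ := Finset.mem_image.1 hv
    rw [Finset.mem_Icc] at hw
    have hw1 : (1 : ℝ) ≤ w := by exact_mod_cast hw.1
    have hw2 : (w : ℝ) ≤ n := by exact_mod_cast hw.2
    have e : 1 / ((c : ℝ) * (n + 1)) * ((c * w : ℕ) : ℝ) = w / (n + 1) := by
      push_cast
      field_simp
    rw [e]
    refine le_nd 0 ?_ ?_
    · simp only [Int.cast_zero, sub_zero]
      exact div_le_div_of_nonneg_right hw1 (by linarith)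
    · simp only [Int.cast_zero, sub_zero]
      rw [div_le_iff₀ (by linarith), sub_mul, one_mul, div_mul_cancel₀ _ (by linarith)]
      linarith

/-- If two speeds are `a x` and `a y` with `y - x` odd, the loneliness gap is less than `1 / 2`. -/
theorem κ_lt_half {V : Finset ℕ} (a x y : ℕ) (hx : a * x ∈ V) (hy : a * y ∈ V) (hy0 : 0 < y)
    (hodd : ∃ d : ℕ, y = x + (2 * d + 1)) : κ V < 1 / 2 := by
  obtain ⟨d, hd⟩ := hodd
  have hyR : (0 : ℝ) < y := by exact_mod_cast hy0
  have hxR : (0 : ℝ) ≤ x := by positivity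
  have hdR : (y : ℝ) = x + (2 * d + 1) := by rw [hd]; push_cast; ring
  have hpos : (0 : ℝ) < 1 / (4 * (x + y)) := by positivity
  refine lt_of_le_of_lt (κ_le (c := 1 / 2 - 1 / (4 * (x + y))) fun t => ?_) (by linarith)
  by_contra hcon
  push Not at hcon
  have h1 := hcon _ hx
  have h2 := hcon _ hy
  -- a real number at distance more than `1 / 2 - η` from all integers is near a half integer
  have key : ∀ z η : ℝ, 1 / 2 - η < |z - round z| → ∃ m : ℤ, |z - (m + 1 / 2)| < η := by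
    intro z η hz
    have h0 := abs_sub_round z
    rcases le_total 0 (z - round z) with h | h
    · rw [abs_of_nonneg h] at hz h0
      refine ⟨round z, ?_⟩
      rw [abs_lt]
      constructor <;> linarith
    · rw [abs_of_nonpos h] at hz h0
      refine ⟨round z - 1, ?_⟩
      rw [abs_lt]
      push_cast
      constructor <;> linarith
  obtain ⟨m, hm⟩ := key _ _ h1
  obtain ⟨l, hl⟩ := key _ _ h2
  have ex : t * ((a * x : ℕ) : ℝ) = t * a * x := by push_cast; ring
  have ey : t * ((a * y : ℕ) : ℝ) = t * a * y := by push_cast; ring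
  rw [ex] at hm
  rw [ey] at hl
  -- `y (t a x) = x (t a y)`
  have h3 : |(y : ℝ) * (t * a * x - (m + 1 / 2)) - x * (t * a * y - (l + 1 / 2))| <
      (x + y) * (1 / (4 * (x + y))) * 2 := by
    refine lt_of_le_of_lt (abs_sub _ _) ?_
    rw [abs_mul, abs_mul, abs_of_pos hyR, abs_of_nonneg hxR]
    have := mul_lt_mul_of_pos_left hm hyR
    have := mul_le_mul_of_nonneg_left hl.le hxR
    nlinarith [mul_pos hyR hpos, mul_nonneg hxR hpos.le]
  have e3 : (x + y) * (1 / (4 * ((x : ℝ) + y))) * 2 = 1 / 2 := by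
    field_simp
    norm_num
  rw [e3] at h3
  have e4 : (y : ℝ) * (t * a * x - (m + 1 / 2)) - x * (t * a * y - (l + 1 / 2)) =
      ((x * l - y * m - d - 1 : ℤ) : ℝ) + 1 / 2 := by
    push_cast
    rw [hdR]
    ring
  rw [e4] at h3
  set N : ℤ := x * l - y * m - d - 1 with hN
  rw [abs_lt] at h3
  have h5 : (-1 : ℝ) < (N : ℝ) := by linarith [h3.1]
  have h6 : ((N : ℤ) : ℝ) < 0 := by linarith [h3.2]
  have h5' : (-1 : ℤ) < N := by exact_mod_cast h5
  have h6' : N < 0 := by exact_mod_cast h6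
  omega

/-- **Theorem.** Let `n ≥ 2` and `a ≥ 1`, and let `ε > 0`. There is a set `V` of `n` speeds whose
loneliness gap is less than `1 / 2`, but more than `1 / 2 - ε`, such that the loneliness gap of the
translate `a + V` is exactly `1 / (n + 1)`, and smaller than that of `V`. -/
theorem result : ∀ n a : ℕ, 2 ≤ n → 1 ≤ a → ∀ ε : ℝ, 0 < ε →
    ∃ V : Finset ℕ, IsSpeeds n V ∧ 1 / 2 - ε < κ V ∧ κ V < 1 / 2 ∧
      κ (translate a V) = 1 / ((n : ℝ) + 1) ∧ κ (translate a V) < κ V := by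
  intro n a hn ha ε hε
  obtain ⟨d, hd⟩ := exists_nat_gt (1 / (2 * ε) + 5)
  set k : ℕ := 2 * d + 1 with hk
  have haR : (0 : ℝ) < a := by exact_mod_cast ha
  have hkR : (k : ℝ) = 2 * d + 1 := by rw [hk]; push_cast; ring
  have hεpos : 0 < 1 / (2 * ε) := by positivity
  have hd5 : (5 : ℝ) < d := by linarith
  have hd5' : 5 < d := by exact_mod_cast hd5
  have hinj : Set.InjOn (fun w => a * (k * w - 1)) (Finset.Icc 1 n : Set ℕ) := by
    intro x hx y hy hxy
    simp only [Finset.coe_Icc, Set.mem_Icc] at hx hy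
    have h3 : k * x - 1 = k * y - 1 := Nat.eq_of_mul_eq_mul_left (by omega) hxy
    have h4 : 1 ≤ k * x := Nat.mul_pos (by omega) hx.1
    have h5 : 1 ≤ k * y := Nat.mul_pos (by omega) hy.1
    exact Nat.eq_of_mul_eq_mul_left (show 0 < k by omega) (by omega)
  set V : Finset ℕ := (Finset.Icc 1 n).image (fun w => a * (k * w - 1)) with hVdef
  have hmem : ∀ w, 1 ≤ w → w ≤ n → a * (k * w - 1) ∈ V := fun w h1 h2 =>
    Finset.mem_image.2 ⟨w, Finset.mem_Icc.2 ⟨h1, h2⟩, rfl⟩
  have hV : IsSpeeds n V := by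
    refine ⟨?_, fun v hv => ?_⟩
    · rw [hVdef, Finset.card_image_of_injOn hinj, Nat.card_Icc]; omega
    · obtain ⟨w, hw, rfl⟩ := Finset.mem_image.1 hv
      rw [Finset.mem_Icc] at hw
      have : k * 1 ≤ k * w := Nat.mul_le_mul_left _ hw.1
      exact Nat.mul_pos (by omega) (by omega)
  have hVne : V.Nonempty := ⟨_, hmem 1 le_rfl (by omega)⟩
  have hlow : ((d : ℝ)) / (2 * d + 1) ≤ κ V := by
    refine le_κ hVne (d / (k * a)) fun v hv => ?_
    obtain ⟨w, hw, rfl⟩ := Finset.mem_image.1 hv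
    rw [Finset.mem_Icc] at hw
    have h1 : 1 ≤ k * w := Nat.mul_pos (by omega) hw.1
    have hk0 : (0 : ℝ) < k := by rw [hkR]; positivity
    have e : (d : ℝ) / (k * a) * ((a * (k * w - 1) : ℕ) : ℝ) =
        ((d * w - 1 : ℤ) : ℝ) + (1 - d / (2 * d + 1)) := by
      rw [Nat.cast_mul, Nat.cast_sub h1, ← hkR]
      push_cast
      field_simp
      ring
    rw [e]
    have h2 : (d : ℝ) / (2 * d + 1) ≤ 1 / 2 := by
      rw [div_le_div_iff₀ (by positivity) (by norm_num)]; linarith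
    refine le_nd (d * w - 1 : ℤ) ?_ ?_ <;> linarith
  have hlow2 : 1 / 2 - ε < κ V := by
    refine lt_of_lt_of_le ?_ hlow
    have h1 : (1 : ℝ) / 2 - d / (2 * d + 1) = 1 / (2 * (2 * d + 1)) := by
      field_simp
      ring
    have h2 : 1 / (2 * (2 * (d : ℝ) + 1)) < ε := by
      rw [div_lt_iff₀ (by positivity)]
      have h3 : 1 / (2 * ε) < 2 * d + 1 := by linarith
      rw [div_lt_iff₀ (by positivity)] at h3
      linarith
    linarith
  have hup : κ V < 1 / 2 := by
    refine κ_lt_half a (k * 1 - 1) (k * 2 - 1) (hmem 1 le_rfl (by omega))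
      (hmem 2 (by omega) hn) (by omega) ⟨d, by omega⟩
  have htr : translate a V = (Finset.Icc 1 n).image (fun w => (a * k) * w) := by
    unfold translate
    rw [hVdef, Finset.image_image]
    refine Finset.image_congr fun w hw => ?_
    simp only [Finset.coe_Icc, Set.mem_Icc] at hw
    simp only [Function.comp]
    obtain ⟨u, hu⟩ : ∃ u, k * w = u + 1 := ⟨k * w - 1, by
      have : 1 ≤ k * w := Nat.mul_pos (by omega) hw.1
      omega⟩
    rw [mul_assoc, hu]
    simp only [Nat.add_sub_cancel]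
    ring
  have heq : κ (translate a V) = 1 / ((n : ℝ) + 1) :=
    κ_multiples n (a * k) (by omega) (Nat.mul_pos (by omega) (by omega)) htr
  refine ⟨V, hV, hlow2, hup, heq, ?_⟩
  rw [heq]
  refine lt_of_lt_of_le ?_ hlow
  have hnR : (2 : ℝ) ≤ n := by exact_mod_cast hn
  rw [div_lt_div_iff₀ (by linarith) (by positivity)]
  nlinarith

end Pool.Agent.Results.MP_64d5df_nt.TranslationLowersGap
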